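import Mathlib
import Pool.Agent.W957.CH.Stm2

/-! Project CH (helper957): cycles as walks, and the main theorem from its parts. -/

set_option autoImplicit false

namespace Pool.Agent.W287.CH

open Finset
open Pool.Agent.W957.CH

lemma edge_not_mem {V : Type} {G : SimpleGraph V} {a b : V} (p : G.Walk a b) (hp : p.IsPath)
    (h : 2 ≤ p.length) : s(b, a) ∉ p.edges := by
  cases p with
  | nil => simp at h
  | @cons _ x _ hadj q =>
    rw [SimpleGraph.Walk.cons_isPath_iff] at hp
    rw [SimpleGraph.Walk.edges_cons, List.mem_cons]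
    rintro (h1 | h1)
    · rw [Sym2.eq_iff] at h1
      rcases h1 with ⟨h2, _⟩ | ⟨h2, _⟩
      · apply hp.2
        rw [← h2]
        exact q.end_mem_support
      · subst h2
        have h3 : q = SimpleGraph.Walk.nil := SimpleGraph.Walk.isPath_iff_eq_nil.1 hp.1
        rw [h3] at h
        simp at h
    · exact hp.2 (SimpleGraph.Walk.snd_mem_support_of_mem_edges q h1)

open Classical in
lemma ed2_le {V : Type} [Fintype V] [DecidableEq V] (G : SimpleGraph V) (S : Finset V)
    (E : Finset (Sym2 V)) (hE : ∀ e ∈ G.edgeSet, (∀ x ∈ e, x ∈ S) → e ∈ E) :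
    ed2 G S ≤ 2 * E.card := by
  unfold ed2
  refine Finset.card_le_mul_card_image_of_maps_to (f := fun p : V × V => s(p.1, p.2)) ?_ 2 ?_
  · intro p hp
    rw [Finset.mem_filter, Finset.mem_product] at hp
    apply hE
    · exact hp.2
    · intro x hx
      rcases Sym2.mem_iff.1 hx with h | h
      · rw [h]
        exact hp.1.1
      · rw [h]
        exact hp.1.2
  · intro e _
    induction e using Sym2.ind with
    | _ a b =>
      refine (Finset.card_le_card (t := {(a, b), (b, a)}) ?_).trans Finset.card_le_two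
      intro p hp
      rw [Finset.mem_filter] at hp
      have h := hp.2
      rw [Sym2.eq_iff] at h
      rw [Finset.mem_insert, Finset.mem_singleton]
      rcases h with ⟨h1, h2⟩ | ⟨h1, h2⟩
      · left
        exact Prod.ext h1 h2
      · right
        exact Prod.ext h1 h2

theorem t_WLK : S_WLK := by
  classical
  intro V _ _ G l hl
  obtain ⟨h3, ⟨hnd, hch⟩, hclo⟩ := hl
  have hne : l ≠ [] := by
    rintro rfl
    simp at h3
  have hba : G.Adj (l.getLast hne) (l.head hne) :=
    hclo _ _ (List.head?_eq_some_head hne) (List.getLast?_eq_some_getLast hne)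
  set p : G.Walk (l.head hne) (l.getLast hne) := SimpleGraph.Walk.ofSupport l hne hch with hp
  have hsup : p.support = l := SimpleGraph.Walk.support_ofSupport hne hch
  have hpath : p.IsPath := by
    rw [SimpleGraph.Walk.isPath_def, hsup]
    exact hnd
  have hlen : p.length + 1 = l.length := by
    rw [← SimpleGraph.Walk.length_support, hsup]
  have hc : (SimpleGraph.Walk.cons hba p).IsCycle := by
    rw [SimpleGraph.Walk.cons_isCycle_iff]
    exact ⟨hpath, edge_not_mem p hpath (by omega)⟩
  refine ⟨_, SimpleGraph.Walk.cons hba p, hc, ?_, ?_⟩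
  · rw [SimpleGraph.Walk.length_cons, hlen]
  set c := SimpleGraph.Walk.cons hba p with hcdef
  have hcs : ∀ x, x ∈ c.support ↔ x ∈ l.toFinset := by
    intro x
    rw [hcdef, SimpleGraph.Walk.support_cons, hsup, List.mem_cons, List.mem_toFinset]
    constructor
    · rintro (h | h)
      · rw [h]
        exact List.getLast_mem hne
      · exact h
    · exact Or.inr
  set Ch : Finset (Sym2 V) := univ.filter
    (fun e => e ∈ G.edgeSet ∧ (∀ x ∈ e, x ∈ c.support) ∧ e ∉ c.edges) with hCh
  have hset : {e : Sym2 V | e ∈ G.edgeSet ∧ (∀ x ∈ e, x ∈ c.support) ∧ e ∉ c.edges} =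
      (Ch : Set (Sym2 V)) := by
    ext e
    simp [hCh]
  rw [hset, Set.ncard_coe_finset]
  have h4 : ed2 G l.toFinset ≤ 2 * (c.edges.toFinset ∪ Ch).card := by
    apply ed2_le
    intro e he hx
    rw [Finset.mem_union]
    by_cases h5 : e ∈ c.edges
    · left
      exact List.mem_toFinset.2 h5
    · right
      rw [hCh, Finset.mem_filter]
      exact ⟨Finset.mem_univ _, he, fun x hxe => (hcs x).2 (hx x hxe), h5⟩
  have h6 : (c.edges.toFinset ∪ Ch).card ≤ l.length + Ch.card := by
    refine (Finset.card_union_le _ _).trans ?_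
    apply Nat.add_le_add_right
    refine (List.toFinset_card_le _).trans ?_
    rw [SimpleGraph.Walk.length_edges, hcdef, SimpleGraph.Walk.length_cons, hlen]
  have h7 : l.toFinset.card = l.length := List.toFinset_card_of_nodup hnd
  unfold ch2
  rw [h7]
  omega

theorem t_TOP (h1 : S_NUM) (h2 : S_WLK) (h3 : S_REG) (h4 : S_FIN) : S_TOP := by
  classical
  obtain ⟨Nn, F, hN, hN0, hF, hFt, hF4, hF2, hNum⟩ := h1
  have hex : ∀ l : ℕ, ∃ j, l ≤ Nn j := fun l => ⟨l, hN.le_apply⟩
  let k : ℕ → ℕ := fun l => Nat.find (hex l)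
  have hk1 : ∀ l, l ≤ Nn (k l) := fun l => Nat.find_spec (hex l)
  have hk2 : ∀ l j, l ≤ Nn j → k l ≤ j := fun l j h => Nat.find_min' (hex l) h
  have hkmono : Monotone k := fun a b hab => hk2 a _ (hab.trans (hk1 b))
  have hF0 : F 0 = 0 := Nat.le_zero.1 (hF2 0)
  have hk0 : k 0 = 0 := Nat.le_zero.1 (hk2 0 0 (Nat.zero_le _))
  have hk4 : k 4 = 0 := Nat.le_zero.1 (hk2 4 0 hN0.ge)
  have hkt : Filter.Tendsto k Filter.atTop Filter.atTop := by
    rw [Filter.tendsto_atTop]
    intro b
    filter_upwards [Filter.eventually_gt_atTop (Nn b)] with l hl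
    by_contra h
    have h5 : l ≤ Nn b := (hk1 l).trans (hN.monotone (not_le.1 h).le)
    omega
  -- the numerical condition
  have hnum : ∀ l n, l ≤ n * 2 ^ (18 * F (k l)) → 1 ≤ F (k l) →
      Nn (k l - 1) < n * 2 ^ (18 * F (k l)) := by
    intro l n hln hF1
    have hk : k l ≠ 0 := by
      intro h
      rw [h, hF0] at hF1
      omega
    have h5 : ¬ l ≤ Nn (k l - 1) := by
      intro h
      have := hk2 l _ h
      omega
    omega
  refine ⟨fun l => F (k l), hFt.comp hkt, ?_⟩
  intro V _ _ _ G _ hdeg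
  by_contra hcon
  push Not at hcon
  have hcyc : ∀ l, Cyc G l → ch2 G l.toFinset < 2 * F (k l.length) := by
    intro l hl
    obtain ⟨v, c, hc, hlen, hch⟩ := h2 V G l hl
    have h5 := hcon v c hc
    rw [hlen] at h5
    omega
  obtain ⟨X, c, ll, hXk, hXF, hXm, hOk, hGood, hm1, hll, hB⟩ := h3 V G k F hkmono hF hk0 hF2 hF4
    (by rw [hk4, hF0]) (fun l n hln hF1 => (hNum (k l) n hF1 (hnum l n hln hF1)).1) hdeg hcyc
  rw [hXm] at hm1 hll
  obtain ⟨_, hbig, hb⟩ := hNum (k ll) X.L hm1 (hnum ll X.L hll hm1)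
  obtain ⟨s, N, hs, hN1, hN2⟩ := hb X.B.card hB
  have hpar : Par X (Nn (4 * beta X.m 0)) (Nn (bb X.m (Nn (4 * beta X.m 0)))) := by
    constructor
    · intro l hl
      rw [hXk] at hl
      exact (hk1 l).trans (hN.monotone (by omega))
    · intro l hl
      rw [hXk] at hl
      exact (hk1 l).trans (hN.monotone (by omega))
  have hset : Set2 X X.L c (Nn (4 * beta X.m 0)) (Nn (bb X.m (Nn (4 * beta X.m 0)))) := by
    refine ⟨hOk, hGood, le_refl _, hpar, ?_⟩
    rw [hXm]
    exact hbig
  rw [← hXm] at hN1 hN2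
  exact h4 V X X.L c _ _ N s hset hs hN1 hN2

end Pool.Agent.W287.CH
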